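import Pool.Agent.Helper63.XP.StB

/-!
# Project XP (MP_c973ff_an), module MUX: local operators on `L^p` are multiplication operators
-/

set_option autoImplicit false

namespace Pool.Agent.Helper21.XP

open Pool.Agent.Helper63.XP
open Finset Filter Topology MeasureTheory
open scoped ENNReal
open Pool.Agent.Helper49.KX (FS cmp tw un ev Cov MS LY Rep act nrm IsFp StEvm StAlg Bdd)

section core

variable {Y : Type} [MeasurableSpace Y] (ν : Measure Y) [SigmaFinite ν] (p : ℝ≥0∞)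

/-- the indicator functions of the spanning sets -/
noncomputable def e1 (n : ℕ) : Lp ℂ p ν :=
  indicatorConstLp p (measurableSet_spanningSets ν n) (measure_spanningSets_lt_top ν n).ne (1 : ℂ)

theorem e1_mem (n : ℕ) : ∀ᵐ y ∂ν, y ∈ spanningSets ν n → (e1 ν p n : Y → ℂ) y = 1 :=
  indicatorConstLp_coeFn_mem

variable {ν p}

/-- locality -/
def Lcl (T : Lp ℂ p ν → Lp ℂ p ν) : Prop :=
  ∀ f g : Lp ℂ p ν, (∀ᵐ y ∂ν, (f : Y → ℂ) y = 0 ∨ (g : Y → ℂ) y = 0) →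
    ∀ᵐ y ∂ν, (f : Y → ℂ) y = 0 ∨ (T g : Y → ℂ) y = 0

/-- the symbol of a local operator -/
noncomputable def ht (T : Lp ℂ p ν → Lp ℂ p ν) (y : Y) : ℂ :=
  (T (e1 ν p (spanningSetsIndex ν y)) : Y → ℂ) y

theorem lcl_zero {T : Lp ℂ p ν → Lp ℂ p ν} (hT : Lcl T) (ξ : Lp ℂ p ν) (A : Set Y) (hA : MeasurableSet A)
    (h : ∀ᵐ y ∂ν, y ∈ A → (ξ : Y → ℂ) y = 0) : ∀ᵐ y ∂ν, y ∈ A → (T ξ : Y → ℂ) y = 0 := by
  have h1 : ∀ n : ℕ, ∀ᵐ y ∂ν, y ∈ A → y ∈ spanningSets ν n → (T ξ : Y → ℂ) y = 0 := by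
    intro n
    have hs : MeasurableSet (A ∩ spanningSets ν n) := hA.inter (measurableSet_spanningSets ν n)
    have hf : ν (A ∩ spanningSets ν n) ≠ ∞ :=
      (lt_of_le_of_lt (measure_mono Set.inter_subset_right) (measure_spanningSets_lt_top ν n)).ne
    have h2 := hT (indicatorConstLp p hs hf (1 : ℂ)) ξ ?_
    · filter_upwards [h2, indicatorConstLp_coeFn_mem (p := p) (hs := hs) (hμs := hf) (c := (1 : ℂ))]
        with y hy hy' hyA hyn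
      rcases hy with hy | hy
      · rw [hy' ⟨hyA, hyn⟩] at hy
        norm_num at hy
      · exact hy
    · filter_upwards [h, indicatorConstLp_coeFn_notMem (p := p) (hs := hs) (hμs := hf) (c := (1 : ℂ))]
        with y hy hy'
      by_cases hyA : y ∈ A ∩ spanningSets ν n
      · exact Or.inr (hy hyA.1)
      · exact Or.inl (hy' hyA)
  filter_upwards [ae_all_iff.2 h1] with y hy hyA
  exact hy (spanningSetsIndex ν y) hyA (mem_spanningSetsIndex ν y)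

theorem lcl_eq {T : Lp ℂ p ν → Lp ℂ p ν} (hT : Lcl T) (hadd : ∀ ξ η, T (ξ + η) = T ξ + T η) (ξ η : Lp ℂ p ν)
    (A : Set Y) (hA : MeasurableSet A) (h : ∀ᵐ y ∂ν, y ∈ A → (ξ : Y → ℂ) y = (η : Y → ℂ) y) :
    ∀ᵐ y ∂ν, y ∈ A → (T ξ : Y → ℂ) y = (T η : Y → ℂ) y := by
  have h1 := lcl_zero hT (ξ - η) A hA ?_
  · have h2 : T ξ = T (ξ - η) + T η := by rw [← hadd, sub_add_cancel]
    have h3 := Lp.coeFn_add (T (ξ - η)) (T η)
    rw [← h2] at h3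
    filter_upwards [h1, h3] with y hy1 hy3 hyA
    rw [hy3, Pi.add_apply, hy1 hyA, zero_add]
  · filter_upwards [h, Lp.coeFn_sub ξ η] with y hy hy' hyA
    rw [hy', Pi.sub_apply, hy hyA, sub_self]

/-- on a spanning set the symbol is the value at the indicator function -/
theorem ht_eq (T : Lp ℂ p ν → Lp ℂ p ν) {y : Y} {n : ℕ} (h : spanningSetsIndex ν y = n) :
    ht T y = (T (e1 ν p n) : Y → ℂ) y := by
  unfold ht
  rw [h]

theorem meas_idx (n : ℕ) : MeasurableSet {y : Y | spanningSetsIndex ν y = n} :=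
  (measurableSet_spanningSetsIndex ν) (measurableSet_singleton n)

theorem idx_mem {y : Y} {n : ℕ} (h : spanningSetsIndex ν y = n) : y ∈ spanningSets ν n := by
  rw [← h]
  exact mem_spanningSetsIndex ν y

theorem mul_ind {T : Lp ℂ p ν → Lp ℂ p ν} (hT : Lcl T) (hadd : ∀ ξ η, T (ξ + η) = T ξ + T η)
    (hsmul : ∀ (a : ℂ) ξ, T (a • ξ) = a • T ξ) (c : ℂ) {s : Set Y} (hs : MeasurableSet s) (hμs : ν s ≠ ∞) :
    ∀ᵐ y ∂ν, (T (indicatorConstLp p hs hμs c) : Y → ℂ) y =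
      ht T y * (indicatorConstLp p hs hμs c : Y → ℂ) y := by
  have hmem := indicatorConstLp_coeFn_mem (p := p) (hs := hs) (hμs := hμs) (c := c)
  have hnot := indicatorConstLp_coeFn_notMem (p := p) (hs := hs) (hμs := hμs) (c := c)
  have h0 := lcl_zero hT (indicatorConstLp p hs hμs c) sᶜ hs.compl hnot
  have h1 : ∀ n : ℕ, ∀ᵐ y ∂ν, y ∈ s ∩ {y : Y | spanningSetsIndex ν y = n} →
      (T (indicatorConstLp p hs hμs c) : Y → ℂ) y = (T (c • e1 ν p n) : Y → ℂ) y := by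
    intro n
    refine lcl_eq hT hadd _ _ _ (hs.inter (meas_idx n)) ?_
    filter_upwards [hmem, e1_mem ν p n, Lp.coeFn_smul c (e1 ν p n)] with y hy1 hy2 hy3 hy
    rw [hy1 hy.1, hy3, Pi.smul_apply, hy2 (idx_mem hy.2), smul_eq_mul, mul_one]
  have h2 : ∀ n : ℕ, ∀ᵐ y ∂ν, (T (c • e1 ν p n) : Y → ℂ) y = c * (T (e1 ν p n) : Y → ℂ) y := by
    intro n
    rw [hsmul]
    filter_upwards [Lp.coeFn_smul c (T (e1 ν p n))] with y hy
    rw [hy, Pi.smul_apply, smul_eq_mul]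
  filter_upwards [h0, hmem, hnot, ae_all_iff.2 h1, ae_all_iff.2 h2] with y hy0 hym hyn hy1 hy2
  by_cases hys : y ∈ s
  · rw [hy1 (spanningSetsIndex ν y) ⟨hys, rfl⟩, hy2, hym hys, mul_comm]
    rfl
  · rw [hy0 hys, hyn hys, mul_zero]

variable [Fact (1 ≤ p)]

theorem mul_all (hp : p ≠ ∞) {T : Lp ℂ p ν → Lp ℂ p ν} {c : ℝ} (hT : Lcl T)
    (hadd : ∀ ξ η, T (ξ + η) = T ξ + T η) (hsmul : ∀ (a : ℂ) ξ, T (a • ξ) = a • T ξ)
    (hb : ∀ ξ, ‖T ξ‖ ≤ c * ‖ξ‖) (ξ : Lp ℂ p ν) :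
    ∀ᵐ y ∂ν, (T ξ : Y → ℂ) y = ht T y * (ξ : Y → ℂ) y := by
  have hcont : Continuous T := by
    let L : Lp ℂ p ν →ₗ[ℂ] Lp ℂ p ν := { toFun := T, map_add' := hadd, map_smul' := hsmul }
    exact (L.mkContinuous c hb).continuous
  refine Lp.induction hp (fun ξ : Lp ℂ p ν => ∀ᵐ y ∂ν, (T ξ : Y → ℂ) y = ht T y * (ξ : Y → ℂ) y)
    ?_ ?_ ?_ ξ
  · intro c s hs hμs
    exact mul_ind hT hadd hsmul c hs hμs.ne
  · intro f g hf hg _ h1 h2
    rw [hadd]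
    filter_upwards [h1, h2, Lp.coeFn_add (T (hf.toLp f)) (T (hg.toLp g)), Lp.coeFn_add (hf.toLp f) (hg.toLp g)]
      with y hy1 hy2 hy3 hy4
    rw [hy3, hy4, Pi.add_apply, Pi.add_apply, hy1, hy2, mul_add]
  · refine isClosed_of_closure_subset fun η hη => ?_
    obtain ⟨F, hF, hlim⟩ := mem_closure_iff_seq_limit.1 hη
    obtain ⟨ns, hns, h1⟩ := (tendstoInMeasure_of_tendsto_Lp hlim).exists_seq_tendsto_ae
    have hlim2 : Tendsto (fun i => T (F (ns i))) atTop (𝓝 (T η)) :=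
      (hcont.tendsto η).comp (hlim.comp hns.tendsto_atTop)
    obtain ⟨ms, hms, h2⟩ := (tendstoInMeasure_of_tendsto_Lp hlim2).exists_seq_tendsto_ae
    have h3 : ∀ i, ∀ᵐ y ∂ν, (T (F i) : Y → ℂ) y = ht T y * (F i : Y → ℂ) y := hF
    show ∀ᵐ y ∂ν, (T η : Y → ℂ) y = ht T y * (η : Y → ℂ) y
    filter_upwards [h1, h2, ae_all_iff.2 h3] with y hy1 hy2 hy3
    have h4 : Tendsto (fun i => ht T y * (F (ns (ms i)) : Y → ℂ) y) atTop (𝓝 (ht T y * (η : Y → ℂ) y)) :=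
      (hy1.comp hms.tendsto_atTop).const_mul (ht T y)
    refine tendsto_nhds_unique hy2 ?_
    simpa only [hy3] using h4

theorem ht_le {T : Lp ℂ p ν → Lp ℂ p ν} {c : ℝ} (hc : 0 ≤ c) (hT : Lcl T)
    (hadd : ∀ ξ η, T (ξ + η) = T ξ + T η) (hb : ∀ ξ, ‖T ξ‖ ≤ c * ‖ξ‖) : ∀ᵐ y ∂ν, ‖ht T y‖ ≤ c := by
  have key : ∀ (n m : ℕ), ∀ᵐ y ∂ν, y ∈ spanningSets ν n →
      ¬ (c + 1 / ((m : ℝ) + 1) < ‖(T (e1 ν p n) : Y → ℂ) y‖) := by
    intro n m
    set A : Set Y := spanningSets ν n ∩ {y | c + 1 / ((m : ℝ) + 1) < ‖(T (e1 ν p n) : Y → ℂ) y‖} with hA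
    have hAm : MeasurableSet A := (measurableSet_spanningSets ν n).inter
      (measurableSet_lt measurable_const (Lp.stronglyMeasurable (T (e1 ν p n))).norm.measurable)
    have hAf : ν A ≠ ∞ :=
      (lt_of_le_of_lt (measure_mono Set.inter_subset_left) (measure_spanningSets_lt_top ν n)).ne
    set ξ : Lp ℂ p ν := indicatorConstLp p hAm hAf (1 : ℂ) with hξ
    have hmem := indicatorConstLp_coeFn_mem (p := p) (hs := hAm) (hμs := hAf) (c := (1 : ℂ))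
    have hnot := indicatorConstLp_coeFn_notMem (p := p) (hs := hAm) (hμs := hAf) (c := (1 : ℂ))
    have h1 : ∀ᵐ y ∂ν, y ∈ A → (T ξ : Y → ℂ) y = (T (e1 ν p n) : Y → ℂ) y := by
      refine lcl_eq hT hadd _ _ _ hAm ?_
      filter_upwards [hmem, e1_mem ν p n] with y hy1 hy2 hy
      rw [hξ, hy1 hy, hy2 hy.1]
    have hm : 0 < 1 / ((m : ℝ) + 1) := by positivity
    have h2 : ‖((c + 1 / ((m : ℝ) + 1) : ℝ) : ℂ) • ξ‖ ≤ ‖T ξ‖ := by
      refine Lp.norm_le_norm_of_ae_le ?_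
      filter_upwards [h1, hmem, hnot, Lp.coeFn_smul ((c + 1 / ((m : ℝ) + 1) : ℝ) : ℂ) ξ] with y hy1 hym hyn hys
      rw [hys, Pi.smul_apply, smul_eq_mul, norm_mul, Complex.norm_real, Real.norm_eq_abs,
        abs_of_nonneg (by positivity)]
      by_cases hyA : y ∈ A
      · rw [hξ, hym hyA, norm_one, mul_one, ← hξ, hy1 hyA]
        exact le_of_lt hyA.2
      · rw [hξ, hyn hyA, norm_zero, mul_zero]
        exact norm_nonneg _
    rw [norm_smul, Complex.norm_real, Real.norm_eq_abs, abs_of_nonneg (by positivity)] at h2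
    have h3 : ‖ξ‖ = 0 := by
      have h4 := h2.trans (hb ξ)
      have h5 := norm_nonneg ξ
      by_contra h6
      have h7 : 0 < ‖ξ‖ := lt_of_le_of_ne h5 (Ne.symm h6)
      have := mul_pos hm h7
      nlinarith
    have h4 : ξ = 0 := norm_eq_zero.1 h3
    have h5 : ∀ᵐ y ∂ν, (ξ : Y → ℂ) y = 0 := by
      rw [h4]
      filter_upwards [Lp.coeFn_zero ℂ p ν] with y hy
      rw [hy]
      rfl
    filter_upwards [h5, hmem] with y hy5 hym hyn hlt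
    have hyA : y ∈ A := ⟨hyn, hlt⟩
    rw [hξ, hym hyA] at hy5
    norm_num at hy5
  filter_upwards [ae_all_iff.2 fun n => ae_all_iff.2 fun m => key n m] with y hy
  by_contra h
  push Not at h
  obtain ⟨m, hm⟩ := exists_nat_one_div_lt (sub_pos.2 h)
  refine hy (spanningSetsIndex ν y) m (mem_spanningSetsIndex ν y) ?_
  have : ht T y = (T (e1 ν p (spanningSetsIndex ν y)) : Y → ℂ) y := rfl
  rw [← this]
  linarith

theorem mul_fam (hp : p ≠ ∞) {X : Type} [TopologicalSpace X] [CompactSpace X] (T : C(X, ℂ) → Lp ℂ p ν → Lp ℂ p ν)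
    (hT : ∀ φ, Lcl (T φ)) (hadd : ∀ φ ξ η, T φ (ξ + η) = T φ ξ + T φ η)
    (hsmul : ∀ φ (a : ℂ) ξ, T φ (a • ξ) = a • T φ ξ) (hb : ∀ φ ξ, ‖T φ ξ‖ ≤ ‖φ‖ * ‖ξ‖)
    (hmul : ∀ φ φ' ξ, T (φ * φ') ξ = T φ (T φ' ξ)) :
    ∃ hat : C(X, ℂ) → Y → ℂ, (∀ φ ξ, ∀ᵐ y ∂ν, (T φ ξ : Y → ℂ) y = hat φ y * (ξ : Y → ℂ) y) ∧
    (∀ φ φ', ∀ᵐ y ∂ν, hat (φ * φ') y = hat φ y * hat φ' y) ∧
    (∀ φ, ∀ᵐ y ∂ν, ‖hat φ y‖ ≤ ‖φ‖) ∧ ∀ᵐ y ∂ν, hat 0 y = 0 := by
  have h1 : ∀ (φ : C(X, ℂ)) (ξ : Lp ℂ p ν), ∀ᵐ y ∂ν, (T φ ξ : Y → ℂ) y = ht (T φ) y * (ξ : Y → ℂ) y :=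
    fun φ ξ => mul_all hp (hT φ) (hadd φ) (hsmul φ) (hb φ) ξ
  refine ⟨fun φ => ht (T φ), h1, ?_, ?_, ?_⟩
  · intro φ φ'
    have h2 : ∀ n : ℕ, ∀ᵐ y ∂ν, (T (φ * φ') (e1 ν p n) : Y → ℂ) y =
        ht (T φ) y * (T φ' (e1 ν p n) : Y → ℂ) y := by
      intro n
      rw [hmul]
      exact h1 φ (T φ' (e1 ν p n))
    filter_upwards [ae_all_iff.2 h2] with y hy
    exact hy (spanningSetsIndex ν y)
  · intro φ
    exact ht_le (norm_nonneg φ) (hT φ) (hadd φ) (hb φ)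
  · have h2 : ∀ n : ℕ, ∀ᵐ y ∂ν, (T 0 (e1 ν p n) : Y → ℂ) y = 0 := by
      intro n
      have h3 := hb 0 (e1 ν p n)
      rw [norm_zero, zero_mul] at h3
      rw [norm_le_zero_iff.1 h3]
      filter_upwards [Lp.coeFn_zero ℂ p ν] with y hy
      rw [hy]
      rfl
    filter_upwards [ae_all_iff.2 h2] with y hy
    exact hy (spanningSetsIndex ν y)

end core

theorem hMUX : StMux := by
  intro hLox hRax p _ hp hp2 X _ _ ρ
  let _ := ρ.M.mY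
  have := ρ.M.sf
  exact mul_fam (ν := ρ.M.ν) (p := p) hp (X := X) ρ.π (fun φ f g h => hLox hRax p hp hp2 X ρ φ f g h)
    (fun φ => (ρ.contr φ).add) (fun φ => (ρ.contr φ).smul) (fun φ => (ρ.contr φ).bound) ρ.mul

end Pool.Agent.Helper21.XP
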